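import Pool.Agent.helper68.SF.SpecJ

/-! # Project sf, module J4: the cone function for small lengths -/

set_option autoImplicit false

namespace SF

open MeasureTheory Set
open scoped ContDiff

theorem J4_den {v : ℤ × ℤ} (hv : v ∈ Pv) (x y : ℝ) (hy : 0 < y) :
    0 < ((v.1 : ℝ) * x + v.2) ^ 2 + ((v.1 : ℝ) * y) ^ 2 := by
  by_cases h1 : v.1 = 0
  · have h2 : v.2 ≠ 0 := by
      intro h2
      have h3 : Int.gcd v.1 v.2 = 1 := hv
      rw [h1, h2] at h3
      simp at h3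
    have h4 : (v.2 : ℝ) ≠ 0 := by exact_mod_cast h2
    have h5 : 0 < (v.2 : ℝ) ^ 2 := by positivity
    rw [h1]
    simpa using h5
  · have h2 : (v.1 : ℝ) ≠ 0 := by exact_mod_cast h1
    have h3 : 0 < ((v.1 : ℝ) * y) ^ 2 := by positivity
    have h4 := sq_nonneg ((v.1 : ℝ) * x + v.2)
    linarith

theorem J4_XX {v : ℤ × ℤ} (hv : v ∈ Pv) (x y : ℝ) (hy : 0 < y) :
    DifferentiableAt ℝ (fun t => XX v t y) x := by
  unfold XX Xr
  exact DifferentiableAt.div (by fun_prop) (by fun_prop) (ne_of_gt (J4_den hv x y hy))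

theorem J4_YY {v : ℤ × ℤ} (hv : v ∈ Pv) (x y : ℝ) (hy : 0 < y) :
    DifferentiableAt ℝ (fun t => YY v t y) x ∧ 0 < YY v x y := by
  unfold YY Yr
  exact ⟨DifferentiableAt.div (by fun_prop) (by fun_prop) (ne_of_gt (J4_den hv x y hy)),
    div_pos hy (J4_den hv x y hy)⟩

theorem J4_dX (hRA : RA_stmt) {g : ℝ → ℝ} (hg : Prof g) {v : ℤ × ℤ} (hv : v ∈ Pv) (s y : ℝ)
    (hy : 0 < y) : dX (FF g v) s 0 y =
      psi (XX v 0 1) * dX (fun s x y => b0 g s (YY v x y)) s 0 y + dX (RV g v) s 0 y := by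
  obtain ⟨hY, hYpos⟩ := J4_YY hv 0 y hy
  have hX := J4_XX hv 0 y hy
  have h1 : DifferentiableAt ℝ (fun t => b0 g s (YY v t y)) 0 := by
    have hgd : Differentiable ℝ g := hg.smooth.differentiable (by simp)
    unfold b0
    exact (hY.sqrt hYpos.ne').mul ((hgd _).comp (0 : ℝ) (hY.const_mul _))
  have h2 : DifferentiableAt ℝ (fun t => RV g v s t y) 0 := by
    have hS := (hRA g hg (XX v 0 1)).1
    have hO : IsOpen {p : ℝ × ℝ × ℝ | 0 < p.2.2} :=
      isOpen_lt continuous_const (continuous_snd.comp continuous_snd)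
    have hd : DifferentiableAt ℝ (fun p : ℝ × ℝ × ℝ => RR g p.1 p.2.1 p.2.2 (XX v 0 1))
        (s, XX v 0 y, YY v 0 y) :=
      (hS.contDiffAt (hO.mem_nhds hYpos)).differentiableAt (by simp)
    exact DifferentiableAt.comp (0 : ℝ)
      (g := fun p : ℝ × ℝ × ℝ => RR g p.1 p.2.1 p.2.2 (XX v 0 1))
      (f := fun t => (s, XX v t y, YY v t y)) hd
      ((differentiableAt_const s).prodMk (hX.prodMk hY))
  show deriv (fun t => psi (XX v 0 1) * b0 g s (YY v t y) + RV g v s t y) 0 = _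
  rw [deriv_fun_add (h1.const_mul _) h2, deriv_const_mul _ h1]
  rfl

open Classical in
theorem J4 (hRA : RA_stmt) (hWS : WS_stmt) (hKU : KU_stmt) (hGU : GU_stmt) (hJS : JS_stmt)
    (hJI : JI_stmt) (hJE : JE_stmt) : J4_stmt := by
  intro g hg
  obtain ⟨C0, -, hG⟩ := hGU g hg
  obtain ⟨C1, hI⟩ := hJI g hg
  obtain ⟨C2, hE⟩ := hJE g hg
  set B : Finset (ℤ × ℤ) := (Finset.Icc (-5) 5 ×ˢ Finset.Icc (-5) 5).filter (· ∈ Pv) with hB
  refine ⟨1 / 4 * (B.card * (|C1| + |C2|)), ?_⟩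
  intro l l' hl hl' hll
  set K : ℤ := 5 + ⌈1 / l⌉ + ⌈1 / l'⌉ with hK
  have hc1 : (0 : ℤ) ≤ ⌈1 / l⌉ := Int.ceil_nonneg (by positivity)
  have hc2 : (0 : ℤ) ≤ ⌈1 / l'⌉ := Int.ceil_nonneg (by positivity)
  set F : Finset (ℤ × ℤ) := (Finset.Icc (-K) K ×ˢ Finset.Icc (-K) K).filter (· ∈ Pv) with hF
  have hmem : ∀ v, v ∈ F ↔ (|v.1| ≤ K ∧ |v.2| ≤ K) ∧ v ∈ Pv := by
    intro v
    rw [hF, Finset.mem_filter, Finset.mem_product, Finset.mem_Icc, Finset.mem_Icc, abs_le, abs_le]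
  have hmemB : ∀ v, v ∈ B ↔ (|v.1| ≤ 5 ∧ |v.2| ≤ 5) ∧ v ∈ Pv := by
    intro v
    rw [hB, Finset.mem_filter, Finset.mem_product, Finset.mem_Icc, Finset.mem_Icc, abs_le, abs_le]
  have hFP : ∀ v ∈ F, v ∈ Pv := fun v hv => ((hmem v).1 hv).2
  have hBF : B ⊆ F := by
    intro v hv
    rw [hmemB] at hv
    rw [hmem]
    exact ⟨⟨hv.1.1.trans (by omega), hv.1.2.trans (by omega)⟩, hv.2⟩
  -- the second parts
  set ρ : ℤ × ℤ → ℝ → ℝ := fun v y =>
    1 / √(qq l l' y) * dX (RV g v) (-(1 / 2) * Real.log (qq l l' y)) 0 y with hρ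
  have hzero : ∀ v ∈ Pv, v ∉ B → ∀ y, 0 < y →
      dX (RV g v) (-(1 / 2) * Real.log (qq l l' y)) 0 y = 0 := by
    intro v hv hvB y hy
    by_cases h1 : v.1 = 0
    · exfalso
      apply hvB
      rw [hmemB]
      have h2 : Int.gcd v.1 v.2 = 1 := hv
      rw [h1, Int.gcd_zero_left] at h2
      refine ⟨⟨?_, ?_⟩, hv⟩
      · rw [h1]
        simp
      · rw [Int.abs_eq_natAbs, h2]
        norm_num
    · by_cases h2 : v.2 = 0
      · exfalso
        apply hvB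
        rw [hmemB]
        have h3 : Int.gcd v.1 v.2 = 1 := hv
        rw [h2, Int.gcd_zero_right] at h3
        refine ⟨⟨?_, ?_⟩, hv⟩
        · rw [Int.abs_eq_natAbs, h3]
          norm_num
        · rw [h2]
          simp
      · refine (hI l l' hl hl' hll v hv h1 h2).2.2 ?_ y hy
        by_contra h3
        push Not at h3
        exact hvB ((hmemB v).2 ⟨h3, hv⟩)
  have hint : ∀ v ∈ Pv, IntegrableOn (ρ v) (Ioi 0) ∧ |∫ y in Ioi (0 : ℝ), ρ v y| ≤ |C1| + |C2| := by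
    intro v hv
    by_cases h1 : v.1 = 0 ∨ v.2 = 0
    · obtain ⟨h2, h3⟩ := hE l l' hl hl' hll v hv h1
      exact ⟨h2, h3.trans (by linarith [le_abs_self C2, abs_nonneg C1])⟩
    · push Not at h1
      obtain ⟨h2, h3, -⟩ := hI l l' hl hl' hll v hv h1.1 h1.2
      exact ⟨h2, h3.trans (by linarith [le_abs_self C1, abs_nonneg C2])⟩
  have hbig : ∀ v ∈ Pv, v ∉ F → 1 ≤ |(v.1 : ℝ)| * l + |(v.2 : ℝ)| * l' := by
    intro v hv hvF
    have h1 : K < |v.1| ∨ K < |v.2| := by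
      by_contra h
      push Not at h
      exact hvF ((hmem v).2 ⟨h, hv⟩)
    have hp1 : 0 ≤ |(v.1 : ℝ)| * l := by positivity
    have hp2 : 0 ≤ |(v.2 : ℝ)| * l' := by positivity
    rcases h1 with h1 | h1
    · have h2 : ((K : ℤ) : ℝ) < |(v.1 : ℝ)| := by exact_mod_cast h1
      have h3 : 1 / l ≤ (⌈1 / l⌉ : ℝ) := Int.le_ceil _
      have h4 : (⌈1 / l⌉ : ℝ) ≤ ((K : ℤ) : ℝ) := by
        exact_mod_cast (show ⌈1 / l⌉ ≤ K by omega)
      have h5 : 1 / l * l ≤ |(v.1 : ℝ)| * l :=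
        mul_le_mul_of_nonneg_right (by linarith) hl.le
      rw [one_div_mul_cancel hl.ne'] at h5
      linarith
    · have h2 : ((K : ℤ) : ℝ) < |(v.2 : ℝ)| := by exact_mod_cast h1
      have h3 : 1 / l' ≤ (⌈1 / l'⌉ : ℝ) := Int.le_ceil _
      have h4 : (⌈1 / l'⌉ : ℝ) ≤ ((K : ℤ) : ℝ) := by
        exact_mod_cast (show ⌈1 / l'⌉ ≤ K by omega)
      have h5 : 1 / l' * l' ≤ |(v.2 : ℝ)| * l' :=
        mul_le_mul_of_nonneg_right (by linarith) hl'.le
      rw [one_div_mul_cancel hl'.ne'] at h5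
      linarith
  have hgu0 : ∀ v ∈ Pv, v ∉ F → ∀ y, 0 < y → gu g v.1 v.2 l l' y = 0 := fun v hv hvF =>
    (hG v.1 v.2 l l' hl hl').2.2.2.2 (hbig v hv hvF)
  have hPh0 : ∀ v ∈ Pv, v ∉ F →
      Real.sign ((v.1 : ℝ) * v.2) * Ph g (|(v.1 : ℝ)| * l + |(v.2 : ℝ)| * l') = 0 := by
    intro v hv hvF
    rw [← (hG v.1 v.2 l l' hl hl').2.1]
    exact setIntegral_eq_zero_of_forall_eq_zero fun y hy => hgu0 v hv hvF y hy
  -- the integrand
  have hpt : ∀ y ∈ Ioi (0 : ℝ),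
      1 / √(qq l l' y) * dX (ww g) (-(1 / 2) * Real.log (qq l l' y)) 0 y =
        ∑ v ∈ F, 1 / 2 * (psi (XX v 0 1) * gu g v.1 v.2 l l' y + ρ v y) := by
    intro y hy
    have hy : 0 < y := hy
    rw [((hWS g hg).2.2.2.2 _ 0 y hy).2]
    have h1 : ∑ᶠ v ∈ Pv, dX (FF g v) (-(1 / 2) * Real.log (qq l l' y)) 0 y =
        ∑ v ∈ F, dX (FF g v) (-(1 / 2) * Real.log (qq l l' y)) 0 y := by
      apply finsum_mem_eq_sum_of_inter_support_eq
      ext v
      simp only [mem_inter_iff, Finset.mem_coe]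
      constructor
      · rintro ⟨h2, h3⟩
        refine ⟨?_, h3⟩
        by_contra h4
        apply h3
        show dX (FF g v) (-(1 / 2) * Real.log (qq l l' y)) 0 y = 0
        rw [J4_dX hRA hg h2 _ y hy, hzero v h2 (fun h => h4 (hBF h)) y hy, add_zero]
        have h5 := hgu0 v h2 h4 y hy
        rw [← hKU g hg v h2 l l' y hl hl' hy] at h5
        have h6 : 1 / √(qq l l' y) ≠ 0 := by
          have hq : 0 < qq l l' y := by
            unfold qq
            positivity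
          positivity
        rw [(mul_eq_zero.1 h5).resolve_left h6, mul_zero]
      · rintro ⟨h2, h3⟩
        exact ⟨hFP v h2, h3⟩
    rw [h1, Finset.mul_sum, Finset.mul_sum]
    refine Finset.sum_congr rfl fun v hv => ?_
    rw [J4_dX hRA hg (hFP v hv) _ y hy, hρ, ← hKU g hg v (hFP v hv) l l' y hl hl' hy]
    ring
  have hjj : jj g l l' = 1 / 4 * ∑ v ∈ F, psi (XX v 0 1) *
      (Real.sign ((v.1 : ℝ) * v.2) * Ph g (|(v.1 : ℝ)| * l + |(v.2 : ℝ)| * l')) +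
      1 / 4 * ∑ v ∈ F, ∫ y in Ioi (0 : ℝ), ρ v y := by
    unfold jj
    rw [setIntegral_congr_fun measurableSet_Ioi hpt, integral_finset_sum]
    · rw [Finset.mul_sum, Finset.mul_sum, Finset.mul_sum, ← Finset.sum_add_distrib]
      refine Finset.sum_congr rfl fun v hv => ?_
      rw [integral_const_mul, integral_add, integral_const_mul,
        (hG v.1 v.2 l l' hl hl').2.1]
      · ring
      · exact (hG v.1 v.2 l l' hl hl').1.const_mul _
      · exact (hint v (hFP v hv)).1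
    · intro v hv
      exact (((hG v.1 v.2 l l' hl hl').1.const_mul _).add (hint v (hFP v hv)).1).const_mul _
  have hjp : ∑ v ∈ F, psi (XX v 0 1) *
      (Real.sign ((v.1 : ℝ) * v.2) * Ph g (|(v.1 : ℝ)| * l + |(v.2 : ℝ)| * l')) =
      4 * jp g l l' := by
    rw [← (hJS g hg l l' hl hl').2]
    symm
    apply finsum_mem_eq_sum_of_inter_support_eq
    ext v
    simp only [mem_inter_iff, Finset.mem_coe]
    constructor
    · rintro ⟨h2, h3⟩
      refine ⟨?_, h3⟩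
      by_contra h4
      apply h3
      show psi (XX v 0 1) * _ = 0
      rw [hPh0 v h2 h4, mul_zero]
    · rintro ⟨h2, h3⟩
      exact ⟨hFP v h2, h3⟩
  have hsub : ∑ v ∈ F, ∫ y in Ioi (0 : ℝ), ρ v y = ∑ v ∈ B, ∫ y in Ioi (0 : ℝ), ρ v y := by
    symm
    apply Finset.sum_subset hBF
    intro v hv hvB
    refine setIntegral_eq_zero_of_forall_eq_zero fun y hy => ?_
    rw [hρ]
    show 1 / √(qq l l' y) * dX (RV g v) (-(1 / 2) * Real.log (qq l l' y)) 0 y = 0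
    rw [hzero v (hFP v hv) hvB y hy, mul_zero]
  have hdiff : jj g l l' - jp g l l' = 1 / 4 * ∑ v ∈ B, ∫ y in Ioi (0 : ℝ), ρ v y := by
    rw [hjj, hjp, hsub]
    ring
  rw [hdiff, abs_mul, abs_of_nonneg (by norm_num : (0 : ℝ) ≤ 1 / 4)]
  refine mul_le_mul_of_nonneg_left ?_ (by norm_num)
  refine (Finset.abs_sum_le_sum_abs _ _).trans ?_
  rw [← nsmul_eq_mul]
  exact Finset.sum_le_card_nsmul _ _ _ fun v hv => (hint v ((hmemB v).1 hv).2).2

end SF
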