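import Pool.Agent.helper68.SF.SpecW

/-! # Project sf, module NS: the function N is smooth -/

set_option autoImplicit false

namespace SF

open Set MeasureTheory
open scoped ContDiff

theorem NS_inner {g : ℝ → ℝ} (hg : Prof g) {A0 C A c p : ℝ} (hA0 : 0 < A0) (hA : A0 / 2 < A)
    (hc : |c| < C) :
    ∫ t : ℝ, deriv g (A * (p ^ 2 + t ^ 2 + 1 - c ^ 2)) =
      ∫ t in (-(6 / A0 + C ^ 2 + 1))..(6 / A0 + C ^ 2 + 1),
        deriv g (A * (p ^ 2 + t ^ 2 + 1 - c ^ 2)) := by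
  symm
  apply intervalIntegral.integral_eq_integral_of_support_subset
  intro t ht
  rw [Function.mem_support] at ht
  have hd : Differentiable ℝ g := hg.smooth.differentiable (by simp)
  have hA1 : 0 < A := by linarith [half_pos hA0]
  have h3 : A * (p ^ 2 + t ^ 2 + 1 - c ^ 2) < 3 := by
    by_contra h
    push Not at h
    apply ht
    set a := A * (p ^ 2 + t ^ 2 + 1 - c ^ 2) with ha
    have h1 : HasDerivWithinAt g (deriv g a) (Ici a) a := (hd a).hasDerivAt.hasDerivWithinAt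
    have h2 : HasDerivWithinAt g 0 (Ici a) a :=
      (hasDerivWithinAt_const a (Ici a) (0 : ℝ)).congr
        (fun x hx => hg.hi x (le_trans h hx)) (hg.hi a h)
    exact (uniqueDiffWithinAt_Ici a).eq_deriv _ h1 h2
  have h6 : 0 < 6 / A0 := by positivity
  have h4 : t ^ 2 - c ^ 2 < 6 / A0 := by
    have h5 : A * (t ^ 2 - c ^ 2) < 3 := by nlinarith [sq_nonneg p]
    by_contra h
    push Not at h
    have h7 : A0 / 2 * (6 / A0) ≤ A * (t ^ 2 - c ^ 2) :=
      mul_le_mul hA.le h h6.le hA1.le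
    have h8 : A0 / 2 * (6 / A0) = 3 := by
      field_simp
      norm_num
    linarith
  have h9 : c ^ 2 < C ^ 2 := by
    rw [← sq_abs c]
    exact pow_lt_pow_left₀ hc (abs_nonneg c) two_ne_zero
  set T := 6 / A0 + C ^ 2 + 1 with hT
  have hT1 : 1 ≤ T := by
    rw [hT]
    nlinarith [sq_nonneg C]
  have h10 : t ^ 2 < T ^ 2 := by nlinarith
  have h11 := abs_lt_of_sq_lt_sq h10 (by linarith)
  rw [abs_lt] at h11
  exact ⟨h11.1, h11.2.le⟩

theorem NS (hPI : PI_stmt) : NS_stmt := by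
  intro g hg
  have hg' : ContDiff ℝ ∞ (deriv g) := (contDiff_infty_iff_deriv.1 hg.smooth).2
  have hopen : IsOpen {p : ℝ × ℝ | 0 < p.1} := isOpen_lt continuous_const continuous_fst
  intro p0 hp0
  set A0 := p0.1 with hA0
  have hA0pos : 0 < A0 := hp0
  set C := |p0.2| + 1 with hC
  set T := 6 / A0 + C ^ 2 + 1 with hT
  have hS1 : ContDiffOn ℝ ∞ (fun e : (ℝ × ℝ) × ℝ => ∫ t in (-T)..T,
      deriv g (e.1.1 * ((e.1.2 * e.2) ^ 2 + t ^ 2 + 1 - e.1.2 ^ 2))) univ := by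
    refine hPI ((ℝ × ℝ) × ℝ) univ (fun e t =>
      deriv g (e.1.1 * ((e.1.2 * e.2) ^ 2 + t ^ 2 + 1 - e.1.2 ^ 2))) (-T) T isOpen_univ ?_
    apply ContDiff.contDiffOn
    exact hg'.comp (by fun_prop)
  have hS2 : ContDiffOn ℝ ∞ (fun e : ℝ × ℝ => ∫ v in (0 : ℝ)..1, ∫ t in (-T)..T,
      deriv g (e.1 * ((e.2 * v) ^ 2 + t ^ 2 + 1 - e.2 ^ 2))) univ := by
    refine hPI (ℝ × ℝ) univ (fun e v => ∫ t in (-T)..T,
      deriv g (e.1 * ((e.2 * v) ^ 2 + t ^ 2 + 1 - e.2 ^ 2))) 0 1 isOpen_univ ?_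
    exact hS1.mono (subset_univ _)
  have hS3 : ContDiff ℝ ∞ (fun e : ℝ × ℝ => e.1 * (e.2 * ∫ v in (0 : ℝ)..1, ∫ t in (-T)..T,
      deriv g (e.1 * ((e.2 * v) ^ 2 + t ^ 2 + 1 - e.2 ^ 2)))) :=
    contDiff_fst.mul (contDiff_snd.mul (contDiffOn_univ.1 hS2))
  have hU : {e : ℝ × ℝ | A0 / 2 < e.1 ∧ |e.2| < C} ∈ nhds p0 := by
    have ho : IsOpen {e : ℝ × ℝ | A0 / 2 < e.1 ∧ |e.2| < C} :=
      (isOpen_lt continuous_const continuous_fst).inter
        (isOpen_lt (continuous_abs.comp continuous_snd) continuous_const)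
    refine ho.mem_nhds ⟨?_, ?_⟩
    · rw [← hA0]
      linarith
    · rw [hC]
      linarith
  refine (hS3.contDiffAt (x := p0)).congr_of_eventuallyEq ?_ |>.contDiffWithinAt
  filter_upwards [hU] with e he
  unfold NN
  congr 1
  have h1 := intervalIntegral.mul_integral_comp_mul_left (a := (0 : ℝ)) (b := 1)
    (f := fun p => ∫ t : ℝ, deriv g (e.1 * (p ^ 2 + t ^ 2 + 1 - e.2 ^ 2))) e.2
  rw [mul_zero, mul_one] at h1
  rw [← h1]
  congr 1
  refine intervalIntegral.integral_congr fun v _ => ?_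
  exact NS_inner hg hA0pos he.1 he.2

end SF
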