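import Pool.Agent.helper68.SF.SpecW

/-! # Project sf, module PD: profiles and the time derivative -/

set_option autoImplicit false

namespace SF

open Set
open scoped ContDiff

theorem PD_deriv {g : ℝ → ℝ} (hg : Prof g) : Prof (deriv g) := by
  have hd : Differentiable ℝ g := hg.smooth.differentiable (by simp)
  refine ⟨(contDiff_infty_iff_deriv.1 hg.smooth).2, ?_, ?_⟩
  · intro a ha
    have h1 : HasDerivWithinAt g (deriv g a) (Iic a) a := (hd a).hasDerivAt.hasDerivWithinAt
    have h2 : HasDerivWithinAt g 0 (Iic a) a :=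
      (hasDerivWithinAt_const a (Iic a) (0 : ℝ)).congr
        (fun x hx => hg.lo x (le_trans hx ha)) (hg.lo a ha)
    exact (uniqueDiffWithinAt_Iic a).eq_deriv _ h1 h2
  · intro a ha
    have h1 : HasDerivWithinAt g (deriv g a) (Ici a) a := (hd a).hasDerivAt.hasDerivWithinAt
    have h2 : HasDerivWithinAt g 0 (Ici a) a :=
      (hasDerivWithinAt_const a (Ici a) (0 : ℝ)).congr
        (fun x hx => hg.hi x (le_trans ha hx)) (hg.hi a ha)
    exact (uniqueDiffWithinAt_Ici a).eq_deriv _ h1 h2

theorem PD_iter {g : ℝ → ℝ} (hg : Prof g) (j : ℕ) : Prof (iteratedDeriv j g) := by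
  induction j with
  | zero => rwa [iteratedDeriv_zero]
  | succ j ih =>
    rw [iteratedDeriv_succ]
    exact PD_deriv ih

theorem PD_formula {g : ℝ → ℝ} (hg : Prof g) (j : ℕ) :
    iteratedDeriv j (DD g) =
      fun a => 2 * (a * iteratedDeriv (j + 1) g a + j * iteratedDeriv j g a) := by
  induction j with
  | zero =>
    funext a
    simp only [iteratedDeriv_zero, Nat.cast_zero, zero_mul, add_zero, zero_add, iteratedDeriv_one]
    unfold DD
    ring
  | succ j ih =>
    rw [iteratedDeriv_succ, ih]
    funext a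
    have h0 : HasDerivAt (iteratedDeriv j g) (iteratedDeriv (j + 1) g a) a := by
      rw [iteratedDeriv_succ]
      exact (((PD_iter hg j).smooth.differentiable (by simp)) a).hasDerivAt
    have h1 : HasDerivAt (iteratedDeriv (j + 1) g) (iteratedDeriv (j + 1 + 1) g a) a := by
      rw [iteratedDeriv_succ (n := j + 1)]
      exact (((PD_iter hg (j + 1)).smooth.differentiable (by simp)) a).hasDerivAt
    have h2 := (((hasDerivAt_id a).mul h1).add (h0.const_mul (j : ℝ))).const_mul (2 : ℝ)
    have h3 : HasDerivAt
        (fun a => 2 * (a * iteratedDeriv (j + 1) g a + j * iteratedDeriv j g a))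
        (2 * (1 * iteratedDeriv (j + 1) g a + a * iteratedDeriv (j + 1 + 1) g a +
          j * iteratedDeriv (j + 1) g a)) a := h2
    rw [h3.deriv]
    push_cast
    ring

theorem PD : PD_stmt := by
  intro g hg
  have hg1 := PD_deriv hg
  refine ⟨⟨?_, ?_, ?_⟩, ?_⟩
  · exact (contDiff_const.mul contDiff_id).mul hg1.smooth
  · intro a ha
    unfold DD
    rw [hg1.lo a ha, mul_zero]
  · intro a ha
    unfold DD
    rw [hg1.hi a ha, mul_zero]
  · intro k B hB j hj a
    rw [PD_formula hg j]
    have hB0 : 0 ≤ B := (abs_nonneg _).trans (hB 0 (Nat.zero_le _) 0)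
    have h1 : |iteratedDeriv j g a| ≤ B := hB j (by omega) a
    have h2 : |a * iteratedDeriv (j + 1) g a| ≤ 3 * B := by
      by_cases h : a ≤ 1
      · rw [(PD_iter hg (j + 1)).lo a h, mul_zero, abs_zero]
        positivity
      · by_cases h' : 3 ≤ a
        · rw [(PD_iter hg (j + 1)).hi a h', mul_zero, abs_zero]
          positivity
        · push Not at h h'
          rw [abs_mul]
          refine mul_le_mul ?_ (hB (j + 1) (by omega) a) (abs_nonneg _) (by norm_num)
          rw [abs_le]
          constructor <;> linarith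
    have h3 : |(j : ℝ) * iteratedDeriv j g a| ≤ j * B := by
      rw [abs_mul, Nat.abs_cast]
      exact mul_le_mul_of_nonneg_left h1 (by positivity)
    have h4 : (j : ℝ) * B ≤ k * B := mul_le_mul_of_nonneg_right (by exact_mod_cast hj) hB0
    show |2 * (a * iteratedDeriv (j + 1) g a + j * iteratedDeriv j g a)| ≤ _
    rw [abs_mul, abs_two]
    have h5 := abs_add_le (a * iteratedDeriv (j + 1) g a) (j * iteratedDeriv j g a)
    nlinarith

end SF
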