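import Pool.Agent.helper1.SF.SpecA

set_option autoImplicit false

namespace SF

open Pool.Agent.helper72.Sq MeasureTheory Set
open scoped ContDiff

lemma RPB_q {l l' y : ℝ} (hl : 1 ≤ l) (hl' : 1 ≤ l') (hy : 0 < y) :
    qq l l' y * y = BB l l' y ∧ 0 < qq l l' y ∧ 1 + y ^ 2 ≤ BB l l' y ∧
      Real.exp (2 * ss l l' y) = 1 / qq l l' y := by
  have h1 : 0 < qq l l' y := by
    unfold qq
    have : 0 < l := by linarith
    have : 0 < l' := by linarith
    positivity
  refine ⟨?_, h1, ?_, ?_⟩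
  · unfold qq BB
    field_simp
  · unfold BB
    have h2 : 1 ≤ l ^ 2 := by nlinarith
    have h3 : 1 ≤ l' ^ 2 := by nlinarith
    nlinarith [mul_le_mul_of_nonneg_left h3 (sq_nonneg y)]
  · unfold ss
    rw [show 2 * (-(1 / 2) * Real.log (qq l l' y)) = -Real.log (qq l l' y) by ring, Real.exp_neg,
      Real.exp_log h1, one_div]

/-- the comparison series -/
lemma RPB_L (X Y : ℝ) (hY : 0 < Y) :
    Integrable (fun t : ℝ => (t ^ 2 + Y ^ 2)⁻¹) ∧
    HasSum (fun k : ℤ => ∫ t in Ioc (X + k) (X + k + 1), (t ^ 2 + Y ^ 2)⁻¹) (Real.pi / Y) := by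
  have h0 : ∀ t : ℝ, (t ^ 2 + Y ^ 2)⁻¹ = (Y ^ 2)⁻¹ * (1 + (Y⁻¹ * t) ^ 2)⁻¹ := by
    intro t
    field_simp
    ring
  have hi : Integrable (fun t : ℝ => (t ^ 2 + Y ^ 2)⁻¹) := by
    simp_rw [h0]
    exact (integrable_inv_one_add_sq.comp_mul_left' (inv_ne_zero hY.ne')).const_mul _
  refine ⟨hi, ?_⟩
  have h1 := hasSum_integral_iUnion (μ := volume) (f := fun t : ℝ => (t ^ 2 + Y ^ 2)⁻¹)
    (s := fun k : ℤ => Ioc (X + k) (X + k + 1)) (fun _ => measurableSet_Ioc)
    (pairwise_disjoint_Ioc_add_intCast X) (hi.integrableOn)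
  rw [iUnion_Ioc_add_intCast, Measure.restrict_univ] at h1
  have h2 : ∫ t : ℝ, (t ^ 2 + Y ^ 2)⁻¹ = Real.pi / Y := by
    simp_rw [h0]
    rw [integral_const_mul, Measure.integral_comp_mul_left (fun t => (1 + t ^ 2)⁻¹),
      integral_univ_inv_one_add_sq, inv_inv, abs_of_pos hY, smul_eq_mul]
    field_simp
  rwa [h2] at h1

lemma RPB_nv {v : ℤ × ℤ} (hv : v ∈ Pv) {y : ℝ} (hy : 0 < y) : 0 < nv v y := by
  unfold nv
  have h0 : v.1 ≠ 0 ∨ v.2 ≠ 0 := by
    by_contra h
    push Not at h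
    have : Int.gcd v.1 v.2 = 1 := hv
    rw [h.1, h.2] at this
    simp at this
  rcases h0 with h | h
  · have : (v.1 : ℝ) ≠ 0 := by exact_mod_cast h
    positivity
  · have : (v.2 : ℝ) ≠ 0 := by exact_mod_cast h
    positivity

/-- the derivative of `Fv` in `t` -/
noncomputable def RPB_D (g : ℝ → ℝ) (v : ℤ × ℤ) (s y t : ℝ) : ℝ :=
  dX (dX (k1 g)) s t (y / nv v y) * (((v.2 : ℝ) ^ 2 - (v.1 : ℝ) ^ 2 * y ^ 2) / nv v y ^ 2) +
  dX (dY (k1 g)) s t (y / nv v y) * (-(2 * (v.1 : ℝ) * (v.2 : ℝ) * y) / nv v y ^ 2)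

lemma RPB_der (hBS : BS_stmt) (hK1 : K1_stmt) {g : ℝ → ℝ} (hg : Prof g) (v : ℤ × ℤ) (s : ℝ) {y : ℝ}
    (hY : 0 < y / nv v y) :
    (∀ t, HasDerivAt (fun t => Fv g v s y t) (RPB_D g v s y t) t) ∧
      Continuous (fun t => RPB_D g v s y t) := by
  have h1 := hBS (k1 g) (hK1 g hg).1
  have h2 := hBS (dX (k1 g)) h1.2.1
  have h3 := hBS (dY (k1 g)) h1.2.2.1
  refine ⟨fun t => ?_, ?_⟩
  · exact ((h2.2.2.2 s t _ hY).2.1.mul_const _).add ((h3.2.2.2 s t _ hY).2.1.mul_const _)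
  · have hc : ∀ f : ℝ → ℝ → ℝ → ℝ, Sm f → Continuous (fun t => f s t (y / nv v y)) := by
      intro f hf
      have h4 := hf.continuousOn
      exact h4.comp_continuous (f := fun t => (s, t, y / nv v y)) (by fun_prop) (fun t => hY)
    exact ((hc _ h2.2.1).mul continuous_const).add ((hc _ h3.2.1).mul continuous_const)

lemma RPB_coef {v : ℤ × ℤ} {y : ℝ} (hy : 0 < y) (hn : 0 < nv v y) :
    |((v.2 : ℝ) ^ 2 - (v.1 : ℝ) ^ 2 * y ^ 2) / nv v y ^ 2| ≤ (y / nv v y) / y ∧
    |-(2 * (v.1 : ℝ) * (v.2 : ℝ) * y) / nv v y ^ 2| ≤ (y / nv v y) / y := by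
  have e : (y / nv v y) / y = nv v y / nv v y ^ 2 := by
    field_simp
  rw [e, abs_div, abs_div, abs_of_pos (pow_pos hn 2)]
  constructor
  · refine div_le_div_of_nonneg_right ?_ (pow_pos hn 2).le
    unfold nv
    rw [abs_le]
    constructor <;> nlinarith [sq_nonneg ((v.2 : ℝ)), sq_nonneg ((v.1 : ℝ) * y)]
  · refine div_le_div_of_nonneg_right ?_ (pow_pos hn 2).le
    unfold nv
    rw [abs_le]
    constructor <;>
      nlinarith [sq_nonneg ((v.2 : ℝ) - (v.1 : ℝ) * y), sq_nonneg ((v.2 : ℝ) + (v.1 : ℝ) * y)]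

/-- bounds for `Fv` and its derivative -/
lemma RPB_bd {C₀ : ℝ} {g : ℝ → ℝ} {v : ℤ × ℤ} {s y t M : ℝ} (hy : 0 < y) (hn : 0 < nv v y)
    (hM : 0 ≤ M) (hMdef : M = C₀ * MM g (Real.exp (2 * s) / (25 * (y / nv v y))))
    (hK : let M := C₀ * MM g (Real.exp (2 * s) / (25 * (y / nv v y)))
      let r := √(t ^ 2 + (y / nv v y) ^ 2)
      |dX (k1 g) s t (y / nv v y)| ≤ M * √(y / nv v y) / r ^ 2 ∧
      |dY (k1 g) s t (y / nv v y)| ≤ M / (√(y / nv v y) * r) ∧
      |dX (dX (k1 g)) s t (y / nv v y)| ≤ M * √(y / nv v y) / r ^ 3 ∧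
      |dX (dY (k1 g)) s t (y / nv v y)| ≤ M / (√(y / nv v y) * r ^ 2)) :
    |Fv g v s y t| ≤ 2 * M * √(y / nv v y) / (y * √(t ^ 2 + (y / nv v y) ^ 2)) ∧
    |RPB_D g v s y t| ≤ 2 * M * √(y / nv v y) / y * (t ^ 2 + (y / nv v y) ^ 2)⁻¹ := by
  obtain ⟨h1, h2, h3, h4⟩ := hK
  rw [← hMdef] at h1 h2 h3 h4
  obtain ⟨ha, hb⟩ := RPB_coef hy hn
  set Y := y / nv v y with hY
  have hY0 : 0 < Y := div_pos hy hn
  set r := √(t ^ 2 + Y ^ 2) with hr
  have hr0 : 0 < r := Real.sqrt_pos.2 (by positivity)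
  have hr2 : r ^ 2 = t ^ 2 + Y ^ 2 := Real.sq_sqrt (by positivity)
  have hYr : Y ≤ r := by
    rw [hr]
    exact Real.le_sqrt_of_sq_le (by nlinarith [sq_nonneg t])
  have hsY : 0 < √Y := Real.sqrt_pos.2 hY0
  have hsY2 : √Y * √Y = Y := Real.mul_self_sqrt hY0.le
  constructor
  · unfold Fv
    rw [← hY]
    refine (abs_add_le _ _).trans ?_
    rw [abs_mul, abs_mul]
    have e1 : |dX (k1 g) s t Y| * |((v.2 : ℝ) ^ 2 - (v.1 : ℝ) ^ 2 * y ^ 2) / nv v y ^ 2| ≤
        M * √Y / (y * r) := by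
      calc _ ≤ M * √Y / r ^ 2 * (Y / y) := mul_le_mul h1 ha (abs_nonneg _) (by positivity)
        _ ≤ M * √Y / r ^ 2 * (r / y) := by gcongr
        _ = _ := by field_simp
    have e2 : |dY (k1 g) s t Y| * |-(2 * (v.1 : ℝ) * (v.2 : ℝ) * y) / nv v y ^ 2| ≤
        M * √Y / (y * r) := by
      calc _ ≤ M / (√Y * r) * (Y / y) := mul_le_mul h2 hb (abs_nonneg _) (by positivity)
        _ = M / (√Y * r) * (√Y * √Y / y) := by rw [hsY2]
        _ = _ := by field_simp
    calc _ ≤ M * √Y / (y * r) + M * √Y / (y * r) := add_le_add e1 e2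
      _ = _ := by ring
  · unfold RPB_D
    rw [← hY, ← hr2]
    refine (abs_add_le _ _).trans ?_
    rw [abs_mul, abs_mul]
    have e1 : |dX (dX (k1 g)) s t Y| * |((v.2 : ℝ) ^ 2 - (v.1 : ℝ) ^ 2 * y ^ 2) / nv v y ^ 2| ≤
        M * √Y / (y * r ^ 2) := by
      calc _ ≤ M * √Y / r ^ 3 * (Y / y) := mul_le_mul h3 ha (abs_nonneg _) (by positivity)
        _ ≤ M * √Y / r ^ 3 * (r / y) := by gcongr
        _ = _ := by field_simp
    have e2 : |dX (dY (k1 g)) s t Y| * |-(2 * (v.1 : ℝ) * (v.2 : ℝ) * y) / nv v y ^ 2| ≤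
        M * √Y / (y * r ^ 2) := by
      calc _ ≤ M / (√Y * r ^ 2) * (Y / y) := mul_le_mul h4 hb (abs_nonneg _) (by positivity)
        _ = M / (√Y * r ^ 2) * (√Y * √Y / y) := by rw [hsY2]
        _ = _ := by field_simp
    calc _ ≤ M * √Y / (y * r ^ 2) + M * √Y / (y * r ^ 2) := add_le_add e1 e2
      _ = _ := by field_simp; ring

lemma RPB_block (hC5B : C5B_stmt) {h D φ : ℝ → ℝ} (hd : ∀ t, HasDerivAt h (D t) t)
    (hc : Continuous D) (a : ℝ) (hφ : Integrable φ) (hφ0 : ∀ t, 0 ≤ φ t)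
    (hb : ∀ t ∈ Icc (a + 1 / 5) (a + 4 / 5), |D t| ≤ φ t) :
    |c5 (fun r => h (a + r))| ≤ ∫ t in Ioc a (a + 1), φ t := by
  refine (hC5B h D a (fun t _ => hd t) (hc.intervalIntegrable _ _)).trans ?_
  have h1 : a + 1 / 5 ≤ a + 4 / 5 := by linarith
  have h2 : ∫ t in (a + 1 / 5)..(a + 4 / 5), |D t| ≤ ∫ t in (a + 1 / 5)..(a + 4 / 5), φ t :=
    intervalIntegral.integral_mono_on h1 (hc.abs.intervalIntegrable _ _)
      (hφ.intervalIntegrable) hb
  refine h2.trans ?_
  rw [intervalIntegral.integral_of_le h1]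
  refine setIntegral_mono_set hφ.integrableOn (ae_of_all _ hφ0) ?_
  exact (Ioc_subset_Ioc (by linarith) (by linarith)).eventuallyLE

lemma RPB_near {a W : ℝ} (ha : |a| ≤ 1) (hW : 0 ≤ W) :
    40 * W ≤ ∫ t in Ioc a (a + 1), 202 * W * (t ^ 2 + 1 ^ 2)⁻¹ := by
  have hi := ((RPB_L 0 1 one_pos).1.const_mul (202 * W)).integrableOn (s := Ioc a (a + 1))
  have h1 : ∫ t in Ioc a (a + 1), (40 * W) = 40 * W := by
    simp
  rw [← h1]
  refine setIntegral_mono_on continuous_const.integrableOn_Ioc hi measurableSet_Ioc fun t ht => ?_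
  have h2 : t ^ 2 + 1 ^ 2 ≤ 5 := by
    rw [abs_le] at ha
    nlinarith [ht.1, ht.2]
  have h3 : (5 : ℝ)⁻¹ ≤ (t ^ 2 + 1 ^ 2)⁻¹ := inv_anti₀ (by positivity) h2
  nlinarith [mul_le_mul_of_nonneg_left h3 hW]

lemma RPB_sp (hMG : MG_stmt) {v : ℤ × ℤ} (hv : v ∈ Pv) {y : ℝ} (hy : 0 < y) (m : ℤ) :
    dt ((5 : ℤ) • cpl v + m • v) v = 5 ∧
    (XX v 0 y + m / 5) ^ 2 + (y / nv v y) ^ 2 =
      nv ((5 : ℤ) • cpl v + m • v) y / (25 * nv v y) := by
  obtain ⟨h1, _, _, h4, _, h6⟩ := hMG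
  have hd : dt ((5 : ℤ) • cpl v + m • v) v = 5 := by
    have := h1 v hv
    unfold dt at this ⊢
    simp only [Prod.fst_add, Prod.snd_add, Prod.smul_fst, Prod.smul_snd, smul_eq_mul]
    linear_combination 5 * this
  refine ⟨hd, ?_⟩
  have hip : ∀ u : ℤ × ℤ, ip u u 0 y = nv u y := by
    intro u
    unfold ip nv
    ring
  have h7 := h6 ((5 : ℤ) • cpl v + m • v) v 0 y
  rw [hd, hip, hip] at h7
  have hn := RPB_nv hv hy
  rw [h4 v hv 0 y hy m, hip]
  field_simp
  push_cast at h7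
  linear_combination (-25) * h7

lemma RPB_term (hMG : MG_stmt) {C₀ : ℝ} {g : ℝ → ℝ} {v : ℤ × ℤ} (hv : v ∈ Pv) {l l' y M : ℝ}
    (hl : 1 ≤ l) (hl' : 1 ≤ l') (hy : 0 < y) (hy1 : y ≤ 1)
    (hM : 0 ≤ M) (hMdef : M = C₀ * MM g (Real.exp (2 * ss l l' y) / (25 * (y / nv v y))))
    (hA : Real.exp (2 * ss l l' y) / (25 * (y / nv v y)) = nv v y / (25 * BB l l' y))
    (hK : ∀ t, Real.exp (2 * ss l l' y) / (25 * (y / nv v y)) *
        ((y / nv v y) ^ 2 / (t ^ 2 + (y / nv v y) ^ 2)) ≤ 1 / 2 →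
      let M := C₀ * MM g (Real.exp (2 * ss l l' y) / (25 * (y / nv v y)))
      let r := √(t ^ 2 + (y / nv v y) ^ 2)
      |dX (k1 g) (ss l l' y) t (y / nv v y)| ≤ M * √(y / nv v y) / r ^ 2 ∧
      |dY (k1 g) (ss l l' y) t (y / nv v y)| ≤ M / (√(y / nv v y) * r) ∧
      |dX (dX (k1 g)) (ss l l' y) t (y / nv v y)| ≤ M * √(y / nv v y) / r ^ 3 ∧
      |dX (dY (k1 g)) (ss l l' y) t (y / nv v y)| ≤ M / (√(y / nv v y) * r ^ 2))
    (m : ℤ) (hm : 5 * (cpl v).2 + m * v.2 ≠ 0) :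
    |Fv g v (ss l l' y) y (XX v 0 y + m / 5)| ≤ 10 * (M / √y) := by
  have hn := RPB_nv hv hy
  obtain ⟨hd, hr⟩ := RPB_sp hMG hv hy m
  obtain ⟨_, hq0, hBB, _⟩ := RPB_q hl hl' hy
  set u := (5 : ℤ) • cpl v + m • v with hu
  have hu2 : u.2 = 5 * (cpl v).2 + m * v.2 := by
    simp [hu]
  have hu1 : 1 ≤ nv u y := by
    have h1 : u.2 ≠ 0 := by rw [hu2]; exact hm
    have h2 : (1 : ℝ) ≤ (u.2 : ℝ) ^ 2 := by
      have : (1 : ℤ) ≤ u.2 ^ 2 := by
        have := sq_pos_of_ne_zero h1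
        omega
      exact_mod_cast this
    unfold nv
    nlinarith [sq_nonneg ((u.1 : ℝ) * y)]
  have hBB0 : 0 < BB l l' y := by nlinarith [sq_nonneg y]
  have hcond : Real.exp (2 * ss l l' y) / (25 * (y / nv v y)) *
        ((y / nv v y) ^ 2 / ((XX v 0 y + m / 5) ^ 2 + (y / nv v y) ^ 2)) ≤ 1 / 2 := by
    rw [hA, hr]
    have e : nv v y / (25 * BB l l' y) * ((y / nv v y) ^ 2 / (nv u y / (25 * nv v y))) =
        y ^ 2 / (BB l l' y * nv u y) := by
      have : 0 < nv u y := by linarith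
      field_simp
    rw [e, div_le_div_iff₀ (by positivity) (by norm_num)]
    have h3 : BB l l' y ≤ BB l l' y * nv u y := by nlinarith
    have h4 : y ^ 2 ≤ 1 := by nlinarith
    nlinarith
  have h5 := (RPB_bd hy hn hM hMdef (hK _ hcond)).1
  refine h5.trans ?_
  rw [hr]
  set Y := y / nv v y with hY
  have hY0 : 0 < Y := div_pos hy hn
  have e2 : nv u y / (25 * nv v y) = nv u y * Y / (25 * y) := by
    rw [hY]
    field_simp
  rw [e2]
  set r := √(nv u y * Y / (25 * y)) with hrr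
  have hu0 : 0 < nv u y := by linarith
  have hr0 : 0 < r := Real.sqrt_pos.2 (by positivity)
  have hr2 : r ^ 2 = nv u y * Y / (25 * y) := Real.sq_sqrt (by positivity)
  have hsy : 0 < √y := Real.sqrt_pos.2 hy
  have h6 : √Y * √y ≤ 5 * (y * r) := by
    rw [← Real.sqrt_mul hY0.le]
    rw [Real.sqrt_le_left (by positivity)]
    have : (5 * (y * r)) ^ 2 = y * (nv u y * Y) := by
      rw [mul_pow, mul_pow, hr2]
      field_simp
      ring
    rw [this]
    have : 0 < y * Y := mul_pos hy hY0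
    nlinarith
  rw [show 10 * (M / √y) = 10 * M / √y by ring, div_le_div_iff₀ (by positivity) hsy]
  nlinarith [mul_le_mul_of_nonneg_left h6 hM]

lemma RPB_two {e1 e2 a b m : ℤ} (hd : (5 * e1 + m * a) * b - (5 * e2 + m * b) * a = 5)
    (h0 : 5 * e2 + m * b = 0) (hm : ¬ (5 : ℤ) ∣ m) : b = 5 ∨ b = -5 := by
  rw [h0, zero_mul, sub_zero] at hd
  have h1 : b ∣ 5 := ⟨5 * e1 + m * a, by linarith⟩
  have h2 : b.natAbs ∣ 5 := by
    have := Int.natAbs_dvd_natAbs.2 h1
    simpa using this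
  rcases (Nat.dvd_prime (by norm_num)).1 h2 with h3 | h3
  · exfalso
    apply hm
    have h4 : b = 1 ∨ b = -1 := by omega
    rcases h4 with h4 | h4
    · exact ⟨-e2, by rw [h4] at h0; linarith⟩
    · exact ⟨e2, by rw [h4] at h0; linarith⟩
  · omega

theorem RPB (hFDX : FDX_stmt) (hE1I : E1I_stmt) (hKDB : KDB_stmt) (hC5B : C5B_stmt)
    (hMG : MG_stmt) (hK1 : K1_stmt) (hBS : BS_stmt) (hMMT : MMT_stmt) : RPB_stmt := by
  obtain ⟨C₀, hC₀, hK⟩ := hKDB
  refine ⟨202 * Real.pi * C₀, by positivity, ?_⟩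
  intro g hg v hv l l' y hl hl' hy hy1
  obtain ⟨hqy, hq0, hBB, hexp⟩ := RPB_q hl hl' hy
  have hBB0 : 0 < BB l l' y := by nlinarith [sq_nonneg y]
  have hn := RPB_nv hv hy
  have hY0 : 0 < y / nv v y := div_pos hy hn
  have hA : Real.exp (2 * ss l l' y) / (25 * (y / nv v y)) = nv v y / (25 * BB l l' y) := by
    rw [hexp, ← hqy]
    field_simp
  have hAv : Real.exp (2 * ss l l' y) / (25 * (y / nv v y)) = Av l l' v y := hA
  have hA0 : 0 < Av l l' v y := by
    unfold Av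
    positivity
  set M : ℝ := C₀ * MM g (Av l l' v y) with hMd
  have hM : 0 ≤ M := mul_nonneg hC₀.le (hMMT g hg _ hA0).2.2.1
  have hMdef : M = C₀ * MM g (Real.exp (2 * ss l l' y) / (25 * (y / nv v y))) := by
    rw [hAv]
  have hK' := fun t => hK g hg (ss l l' y) t (y / nv v y) hY0
  obtain ⟨hder, hcont⟩ := RPB_der hBS hK1 hg.1 v (ss l l' y) hY0
  obtain ⟨hsum, hdX⟩ := hFDX g hg.1 v hv l l' y hl hl' hy
  have hsy : 0 < √y := Real.sqrt_pos.2 hy
  have hsy2 : √y * √y = y := Real.mul_self_sqrt hy.le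
  have hW : 0 ≤ M / √y := div_nonneg hM hsy.le
  have hT0 := fun m => RPB_term hMG hv hl hl' hy hy1 hM hMdef hA hK' m
  have hSP := fun m => (RPB_sp hMG hv hy m).1
  have hval := fun h5 => hE1I v hv h5
  set X := XX v 0 y with hX
  have hgoal : 202 * Real.pi * C₀ * MM g (Av l l' v y) / √y = 202 * (M / √y) * Real.pi := by
    rw [hMd]
    ring
  rw [hgoal, hdX]
  by_cases hv2 : v.2 = 0
  · -- the vector (± 1, 0)
    rw [if_neg (by rw [hv2]; norm_num), sub_zero]
    have hv1 : (v.1 : ℝ) ^ 2 = 1 := by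
      have h1 : Int.gcd v.1 v.2 = 1 := hv
      rw [hv2, Int.gcd_zero_right] at h1
      have h2 : v.1 = 1 ∨ v.1 = -1 := by omega
      rcases h2 with h | h <;> rw [h] <;> norm_num
    have hnv : nv v y = y ^ 2 := by
      unfold nv
      rw [hv1, hv2]
      simp
    have hYe : y / nv v y = 1 / y := by
      rw [hnv]
      field_simp
    set φ : ℝ → ℝ := fun t => 2 * M * √(y / nv v y) / y * (t ^ 2 + (y / nv v y) ^ 2)⁻¹ with hφ
    have hφi : Integrable φ := (RPB_L 0 _ hY0).1.const_mul _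
    have hs : HasSum (fun k : ℤ => ∫ t in Ioc (X + k) (X + k + 1), φ t)
        (2 * M * √(y / nv v y) / y * (Real.pi / (y / nv v y))) := by
      have := (RPB_L X _ hY0).2.mul_left (2 * M * √(y / nv v y) / y)
      simp only [← integral_const_mul] at this
      exact this
    have hb := tsum_of_norm_bounded hs (f := fun k : ℤ =>
      c5 (fun r => Fv g v (ss l l' y) y (X + k + r))) (fun k => ?_)
    · refine hb.trans ?_
      rw [hYe, one_div, Real.sqrt_inv]
      have e : 2 * M * (√y)⁻¹ / y * (Real.pi / y⁻¹) = 2 * (M / √y) * Real.pi := by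
        field_simp
      rw [e]
      have hpi := Real.pi_pos
      nlinarith [mul_nonneg hW hpi.le]
    · refine RPB_block hC5B hder hcont _ hφi (fun t => by rw [hφ]; positivity) (fun t ht => ?_)
      refine (RPB_bd hy hn hM hMdef (hK' t ?_)).2
      rw [hA, hnv]
      have h1 : (y / y ^ 2) ^ 2 / (t ^ 2 + (y / y ^ 2) ^ 2) ≤ 1 := by
        rw [div_le_one (by positivity)]
        nlinarith [sq_nonneg t]
      have h2 : y ^ 2 / (25 * BB l l' y) ≤ 1 / 2 := by
        rw [div_le_div_iff₀ (by positivity) (by norm_num)]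
        nlinarith
      calc _ ≤ y ^ 2 / (25 * BB l l' y) * 1 := by gcongr
        _ ≤ 1 / 2 := by linarith
  · -- the other vectors
    have hn1 : 1 ≤ nv v y := by
      have h2 : (1 : ℝ) ≤ (v.2 : ℝ) ^ 2 := by
        have : (1 : ℤ) ≤ v.2 ^ 2 := by
          have := sq_pos_of_ne_zero hv2
          omega
        exact_mod_cast this
      unfold nv
      nlinarith [sq_nonneg ((v.1 : ℝ) * y)]
    have hYy : y / nv v y ≤ y := div_le_self hy.le hn1
    have hsYy : √(y / nv v y) ≤ √y := Real.sqrt_le_sqrt hYy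
    have hφi : Integrable (fun t : ℝ => 202 * (M / √y) * (t ^ 2 + 1 ^ 2)⁻¹) :=
      (RPB_L 0 1 one_pos).1.const_mul _
    have hs : HasSum (fun k : ℤ => ∫ t in Ioc (X + k) (X + k + 1),
        202 * (M / √y) * (t ^ 2 + 1 ^ 2)⁻¹) (202 * (M / √y) * Real.pi) := by
      have := (RPB_L X 1 one_pos).2.mul_left (202 * (M / √y))
      simp only [← integral_const_mul, div_one] at this
      exact this
    have hfar : ∀ k : ℤ, (1 / 10 ≤ X + k + 1 / 5 ∨ X + k + 4 / 5 ≤ -(1 / 10)) →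
        |c5 (fun r => Fv g v (ss l l' y) y (X + k + r))| ≤
          ∫ t in Ioc (X + k) (X + k + 1), 202 * (M / √y) * (t ^ 2 + 1 ^ 2)⁻¹ := by
      intro k hk
      refine RPB_block hC5B hder hcont _ hφi (fun t => by positivity) (fun t ht => ?_)
      have ht2 : 1 / 100 ≤ t ^ 2 := by
        rcases hk with hk | hk
        · nlinarith [ht.1]
        · nlinarith [ht.2]
      have ht0 : 1 / 10 ≤ |t| := by
        rcases hk with hk | hk
        · exact le_trans (by linarith [ht.1]) (le_abs_self t)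
        · exact le_trans (by linarith [ht.2]) (neg_le_abs t)
      have hcond : Real.exp (2 * ss l l' y) / (25 * (y / nv v y)) *
        ((y / nv v y) ^ 2 / (t ^ 2 + (y / nv v y) ^ 2)) ≤ 1 / 2 := by
        rw [hA]
        set Y := y / nv v y with hY
        have e1 : nv v y / (25 * BB l l' y) * (Y ^ 2 / (t ^ 2 + Y ^ 2)) =
            y * Y / (25 * BB l l' y * (t ^ 2 + Y ^ 2)) := by
          have : nv v y * Y = y := by
            rw [hY]
            field_simp
          rw [div_mul_div_comm, show nv v y * Y ^ 2 = nv v y * Y * Y by ring, this]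
        rw [e1, div_le_div_iff₀ (by positivity) (by norm_num)]
        have h3 : |t| * Y * 2 ≤ t ^ 2 + Y ^ 2 := by
          rw [← sq_abs t]
          nlinarith [sq_nonneg (|t| - Y)]
        have h4 : Y / 5 ≤ t ^ 2 + Y ^ 2 := by nlinarith
        have h5 : 5 * Y * BB l l' y ≤ 25 * BB l l' y * (t ^ 2 + Y ^ 2) := by nlinarith
        have h6 : y * 2 ≤ BB l l' y := by nlinarith [sq_nonneg (y - 1)]
        nlinarith [mul_le_mul_of_nonneg_left h6 hY0.le]
      have h1 := (RPB_bd hy hn hM hMdef (hK' t hcond)).2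
      refine h1.trans ?_
      have h2 : 2 * M * √(y / nv v y) / y ≤ 2 * (M / √y) := by
        calc _ ≤ 2 * M * √y / y := by gcongr
          _ = 2 * M * √y / (√y * √y) := by rw [hsy2]
          _ = _ := by field_simp
      have h3 : (t ^ 2 + (y / nv v y) ^ 2)⁻¹ ≤ 101 * (t ^ 2 + 1 ^ 2)⁻¹ := by
        rw [← div_eq_mul_inv, inv_le_comm₀ (by positivity) (by positivity), inv_div,
          div_le_iff₀ (by norm_num)]
        nlinarith [sq_nonneg (y / nv v y)]
      calc _ ≤ 2 * (M / √y) * (101 * (t ^ 2 + 1 ^ 2)⁻¹) :=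
            mul_le_mul h2 h3 (by positivity) (by positivity)
        _ = _ := by ring
    have hT : ∀ k j : ℤ, 5 * (cpl v).2 + (5 * k + j) * v.2 ≠ 0 →
        |Fv g v (ss l l' y) y (X + k + j / 5)| ≤ 10 * (M / √y) := by
      intro k j hj
      have h1 := hT0 (5 * k + j) hj
      have e : X + ((5 * k + j : ℤ) : ℝ) / 5 = X + k + j / 5 := by
        push_cast
        ring
      rwa [e] at h1
    have hcase : ∀ k : ℤ, (1 / 10 ≤ X + k + 1 / 5 ∨ X + k + 4 / 5 ≤ -(1 / 10)) ∨ |X + k| ≤ 1 := by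
      intro k
      by_cases h : 1 / 10 ≤ X + k + 1 / 5 ∨ X + k + 4 / 5 ≤ -(1 / 10)
      · exact Or.inl h
      · push Not at h
        right
        rw [abs_le]
        constructor <;> linarith [h.1, h.2]
    have hnear : ∀ k : ℤ, |X + k| ≤ 1 →
        (∀ j : ℤ, 1 ≤ j → j ≤ 4 → 5 * (cpl v).2 + (5 * k + j) * v.2 ≠ 0) →
        |c5 (fun r => Fv g v (ss l l' y) y (X + k + r))| ≤
          ∫ t in Ioc (X + k) (X + k + 1), 202 * (M / √y) * (t ^ 2 + 1 ^ 2)⁻¹ := by
      intro k hk hj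
      refine le_trans ?_ (RPB_near hk hW)
      have h1 := hT k 1 (hj 1 (by norm_num) (by norm_num))
      have h2 := hT k 2 (hj 2 (by norm_num) (by norm_num))
      have h3 := hT k 3 (hj 3 (by norm_num) (by norm_num))
      have h4 := hT k 4 (hj 4 (by norm_num) (by norm_num))
      push_cast at h1 h2 h3 h4
      unfold c5
      rw [abs_le] at h1 h2 h3 h4 ⊢
      constructor <;> linarith [h1.1, h1.2, h2.1, h2.2, h3.1, h3.2, h4.1, h4.2]
    by_cases h5 : v.2 = 5 ∨ v.2 = -5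
    · rw [if_pos h5]
      obtain ⟨m0, hchi, hX0, hm0, hv0⟩ := hval h5
      have hE := hv0 g hg l l' y (by linarith) (by linarith) hy
      have hX1 := hX0 y hy
      set E : ℝ := √(qq l l' y) * TT g l l' y v.1 with hEd
      have he : HasSum (fun k : ℤ => if k = m0 / 5 then chi v.1 * E else 0) (chi v.1 * E) :=
        hasSum_ite_eq (m0 / 5) (chi v.1 * E)
      rw [← he.tsum_eq, ← hsum.tsum_sub he.summable, ← Real.norm_eq_abs]
      refine tsum_of_norm_bounded hs (fun k => ?_)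
      rw [Real.norm_eq_abs]
      by_cases hk : k = m0 / 5
      · rw [if_pos hk]
        have hmk : m0 = 5 * k + m0 % 5 := by omega
        have hne : ∀ j : ℤ, j ≠ m0 % 5 → 5 * (cpl v).2 + (5 * k + j) * v.2 ≠ 0 := by
          intro j hj h0
          apply hj
          have h6 : (j - m0 % 5) * v.2 = 0 := by
            have h7 : 5 * (cpl v).2 + (5 * k + m0 % 5) * v.2 = 0 := by
              rw [← hmk]
              exact hm0
            linear_combination h0 - h7
          have h8 := (mul_eq_zero.1 h6).resolve_right hv2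
          linarith
        have hcast : (m0 : ℝ) / 5 = k + ((m0 % 5 : ℤ) : ℝ) / 5 := by
          have : (m0 : ℝ) = 5 * k + ((m0 % 5 : ℤ) : ℝ) := by exact_mod_cast hmk
          rw [this]
          ring
        rw [hcast, ← add_assoc] at hE hX1
        have hr0 : (0 : ℝ) ≤ ((m0 % 5 : ℤ) : ℝ) := by
          exact_mod_cast Int.emod_nonneg m0 (by norm_num)
        have hr4 : ((m0 % 5 : ℤ) : ℝ) ≤ 4 := by
          have : m0 % 5 ≤ 4 := by omega
          exact_mod_cast this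
        have hka : |X + k| ≤ 1 := by
          rw [abs_le] at hX1 ⊢
          constructor <;> linarith [hX1.1, hX1.2]
        refine le_trans ?_ (RPB_near hka hW)
        have h1 := hT k 1
        have h2 := hT k 2
        have h3 := hT k 3
        have h4 := hT k 4
        push_cast at h1 h2 h3 h4
        rw [← hchi]
        have hm5 : m0 % 5 = 0 ∨ m0 % 5 = 1 ∨ m0 % 5 = 2 ∨ m0 % 5 = 3 ∨ m0 % 5 = 4 := by omega
        rcases hm5 with h | h | h | h | h
        · have hc : chi m0 = 0 := by simp [chi, h]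
          rw [hc]
          have h1 := h1 (hne 1 (by omega))
          have h2 := h2 (hne 2 (by omega))
          have h3 := h3 (hne 3 (by omega))
          have h4 := h4 (hne 4 (by omega))
          unfold c5
          rw [abs_le] at h1 h2 h3 h4 ⊢
          constructor <;> linarith [h1.1, h1.2, h2.1, h2.2, h3.1, h3.2, h4.1, h4.2]
        · have hc : chi m0 = 1 := by simp [chi, h]
          rw [hc, ← hE, h]
          have h2 := h2 (hne 2 (by omega))
          have h3 := h3 (hne 3 (by omega))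
          have h4 := h4 (hne 4 (by omega))
          unfold c5
          push_cast
          rw [abs_le] at h2 h3 h4 ⊢
          constructor <;> linarith [h2.1, h2.2, h3.1, h3.2, h4.1, h4.2]
        · have hc : chi m0 = -1 := by simp [chi, h]
          rw [hc, ← hE, h]
          have h1 := h1 (hne 1 (by omega))
          have h3 := h3 (hne 3 (by omega))
          have h4 := h4 (hne 4 (by omega))
          unfold c5
          push_cast
          rw [abs_le] at h1 h3 h4 ⊢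
          constructor <;> linarith [h1.1, h1.2, h3.1, h3.2, h4.1, h4.2]
        · have hc : chi m0 = -1 := by simp [chi, h]
          rw [hc, ← hE, h]
          have h1 := h1 (hne 1 (by omega))
          have h2 := h2 (hne 2 (by omega))
          have h4 := h4 (hne 4 (by omega))
          unfold c5
          push_cast
          rw [abs_le] at h1 h2 h4 ⊢
          constructor <;> linarith [h1.1, h1.2, h2.1, h2.2, h4.1, h4.2]
        · have hc : chi m0 = 1 := by simp [chi, h]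
          rw [hc, ← hE, h]
          have h1 := h1 (hne 1 (by omega))
          have h2 := h2 (hne 2 (by omega))
          have h3 := h3 (hne 3 (by omega))
          unfold c5
          push_cast
          rw [abs_le] at h1 h2 h3 ⊢
          constructor <;> linarith [h1.1, h1.2, h2.1, h2.2, h3.1, h3.2]
      · rw [if_neg hk, sub_zero]
        rcases hcase k with h | h
        · exact hfar k h
        · refine hnear k h fun j hj1 hj4 h0 => hk ?_
          have h6 : (5 * k + j - m0) * v.2 = 0 := by linear_combination h0 - hm0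
          have h8 := (mul_eq_zero.1 h6).resolve_right hv2
          omega
    · rw [if_neg h5, sub_zero, ← Real.norm_eq_abs]
      refine tsum_of_norm_bounded hs (fun k => ?_)
      rw [Real.norm_eq_abs]
      rcases hcase k with h | h
      · exact hfar k h
      · refine hnear k h fun j hj1 hj4 h0 => h5 ?_
        have hd := hSP (5 * k + j)
        unfold dt at hd
        simp only [Prod.fst_add, Prod.snd_add, Prod.smul_fst, Prod.smul_snd, smul_eq_mul] at hd
        refine RPB_two hd h0 ?_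
        omega

end SF
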